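import Pool.Agent.Full.Topo

/-!
# Q1 for tame quadrilaterals

`Q1tame`: the quadrilateral is the image of the unit square under an open embedding `q` of the plane
into the plane, and the conformal map is injective and holomorphic on the range of `q` (a neighbourhood
of the closed domain).  The reduction `Q1tame → Q1` is in `Pool.Agent.Full.Rough`.
-/

set_option autoImplicit false

open Set Filter Topology H47Perc

namespace Full

/-- tame quadrilaterals: restrictions to the unit square of open embeddings of the plane -/
structure IsTame (q : ℂ → ℂ) : Prop where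
  cont : Continuous q
  inj : Function.Injective q
  isOpenMap : IsOpenMap q

/-- Q1 for tame quadrilaterals -/
def Q1tame : Prop :=
  ∀ q : ℂ → ℂ, IsTame q → ∃ L : ℝ, Tends q L ∧
    ∀ f : ℂ → ℂ, InjOn f (range q) → DifferentiableOn ℂ f (range q) → Tends (f ∘ q) L

lemma isOpen_sqo : IsOpen sqo := by
  have h : sqo = Complex.re ⁻¹' (Ioo 0 1) ∩ Complex.im ⁻¹' (Ioo 0 1) := by
    ext w; simp [sqo, and_assoc]
  rw [h]
  exact (isOpen_Ioo.preimage Complex.continuous_re).inter (isOpen_Ioo.preimage Complex.continuous_im)

lemma IsTame.isQuad {q : ℂ → ℂ} (hq : IsTame q) : IsQuad q :=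
  ⟨hq.cont.continuousOn, hq.inj.injOn, hq.isOpenMap _ isOpen_sqo⟩

end Full
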