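import Pool.Agent.Helper47.Perc.Defs

/-!
# The statement of Q1 (conformal invariance of crossing probabilities of critical bond percolation on `ℤ²`)

A Jordan domain with two disjoint boundary arcs is given, as usual, by a topological quadrilateral: a
continuous injective map `q` of the closed unit square into the plane.  `D` = image of the open square,
closure of `D` = image of the closed square, `∂₁`, `∂₂` = images of the left and of the right side.
Lattice of mesh `ε`: the open edges are closed straight segments of the plane; the crossing event is the
existence of a path (a continuous curve) in the closure of `D`, contained in the union of the open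
edges, from a point of `∂₁` to a point of `∂₂`.
-/

set_option autoImplicit false

open Set Filter Topology H47Perc

namespace Full

/-- the closed unit square -/
def sq : Set ℂ := {w | 0 ≤ w.re ∧ w.re ≤ 1 ∧ 0 ≤ w.im ∧ w.im ≤ 1}

/-- the open unit square -/
def sqo : Set ℂ := {w | 0 < w.re ∧ w.re < 1 ∧ 0 < w.im ∧ w.im < 1}

/-- the left side of the unit square -/
def sqL : Set ℂ := {w | w ∈ sq ∧ w.re = 0}

/-- the right side of the unit square -/
def sqR : Set ℂ := {w | w ∈ sq ∧ w.re = 1}

/-- topological quadrilaterals: the closed unit square is mapped continuously and injectively into the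
plane; the image of the open square is open (this is automatic: invariance of domain) -/
structure IsQuad (q : ℂ → ℂ) : Prop where
  cont : ContinuousOn q sq
  inj : InjOn q sq
  isOpen : IsOpen (q '' sqo)

/-- the position of the vertex `z` of the lattice of mesh `ε` -/
def pos (ε : ℝ) (z : ℤ × ℤ) : ℂ := ⟨ε * z.1, ε * z.2⟩

/-- the union of the open edges (closed segments) of the configuration `ω`, at mesh `ε` -/
def openSet (ε : ℝ) (ω : Finset (Sym2 (ℤ × ℤ))) : Set ℂ :=
  {w | ∃ z z' : ℤ × ℤ, s(z, z') ∈ ω ∧ w ∈ segment ℝ (pos ε z) (pos ε z')}

/-- `q` is crossed: some point of the image of the left side and some point of the image of the right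
side are joined by a continuous path which stays in the closed domain `q '' sq` and in the union of the
open edges -/
def Crossed (ε : ℝ) (q : ℂ → ℂ) (ω : Finset (Sym2 (ℤ × ℤ))) : Prop :=
  ∃ a ∈ q '' sqL, ∃ b ∈ q '' sqR, JoinedIn (openSet ε ω ∩ q '' sq) a b

/-- the crossing probability of `q` for critical bond percolation on the lattice of mesh `ε` tends to
`L` as `ε → 0`.  `S` is any finite set of vertices which contains all vertices at distance at most `ε`
from the domain (only the edges between such vertices can meet the domain, so the probability does not
depend on `S`) -/
def Tends (q : ℂ → ℂ) (L : ℝ) : Prop :=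
  ∀ δ : ℝ, 0 < δ → ∃ ε₀ : ℝ, 0 < ε₀ ∧ ∀ ε : ℝ, 0 < ε → ε < ε₀ → ∀ S : Finset (ℤ × ℤ),
    (∀ z : ℤ × ℤ, Metric.infDist (pos ε z) (q '' sq) ≤ ε → z ∈ S) →
      |perc half S (Crossed ε q) - L| < δ

/-- **Q1.** For every Jordan domain with two disjoint boundary arcs (topological quadrilateral `q`) the
crossing probability has a limit `L` as the mesh tends to zero, and the crossing probability of the
image under every map `f`, continuous and injective on the closed domain and holomorphic in the domain,
has the same limit. -/
def Q1 : Prop :=
  ∀ q : ℂ → ℂ, IsQuad q → ∃ L : ℝ, Tends q L ∧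
    ∀ f : ℂ → ℂ, ContinuousOn f (q '' sq) → InjOn f (q '' sq) → DifferentiableOn ℂ f (q '' sqo) →
      Tends (f ∘ q) L

/-- Jordan domains in the form of the problem: `D` is a bounded connected open set, its frontier is the
image of the circle under a continuous injective map, `A` and `B` are disjoint closed connected subsets
of the frontier with more than one point (arcs).  By the Schoenflies theorem `D`, `A`, `B` are then of
the form `q '' sqo`, `q '' sqL`, `q '' sqR` for some `IsQuad q`. -/
structure IsJordan (D A B : Set ℂ) : Prop where
  isOpen : IsOpen D
  bdd : Bornology.IsBounded D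
  conn : IsConnected D
  curve : ∃ γ : Circle → ℂ, Continuous γ ∧ Function.Injective γ ∧ frontier D = range γ
  closedA : IsClosed A
  connA : IsPreconnected A
  subA : A ⊆ frontier D
  ntA : A.Nontrivial
  closedB : IsClosed B
  connB : IsPreconnected B
  subB : B ⊆ frontier D
  ntB : B.Nontrivial
  disj : Disjoint A B

end Full
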