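import Pool.Agent.Full.Stmt

/-!
# Planar crossing lemma

A path from the left side to the right side and a path from the lower side to the upper side of a
topological quadrilateral meet.
-/

set_option autoImplicit false

open Set Filter Topology Complex

namespace Full

/-- a continuous real function with `sin ≥ 0` along `[0,1]` which starts in `[0, π]` stays there -/
lemma stay {u : ℝ → ℝ} (hu : Continuous u) {a b : ℝ} (hs : ∀ x ∈ uIcc a b, 0 ≤ Real.sin (u x))
    (h0 : u a ∈ Icc 0 Real.pi) : u b ∈ Icc 0 Real.pi := by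
  have hpi := Real.pi_pos
  have hcon := intermediate_value_uIcc (hu.continuousOn (s := uIcc a b))
  constructor
  · by_contra hlt
    push Not at hlt
    have hm : max (u b) (-(Real.pi / 2)) ∈ uIcc (u a) (u b) := by
      rw [mem_uIcc]; right
      exact ⟨le_max_left _ _, max_le (hlt.le.trans h0.1) (by linarith [h0.1])⟩
    obtain ⟨x, hx, hxe⟩ := hcon hm
    have := hs x hx
    rw [hxe] at this
    have hneg : Real.sin (max (u b) (-(Real.pi / 2))) < 0 := by
      apply Real.sin_neg_of_neg_of_neg_pi_lt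
      · exact max_lt hlt (by linarith)
      · exact lt_of_lt_of_le (by linarith) (le_max_right _ _)
    linarith
  · by_contra hlt
    push Not at hlt
    have hm : min (u b) (3 * Real.pi / 2) ∈ uIcc (u a) (u b) := by
      rw [mem_uIcc]; left
      exact ⟨le_min (h0.2.trans hlt.le) (by linarith [h0.2]), min_le_left _ _⟩
    obtain ⟨x, hx, hxe⟩ := hcon hm
    have := hs x hx
    rw [hxe] at this
    have h1 : Real.pi < min (u b) (3 * Real.pi / 2) := lt_min hlt (by linarith)
    have h2 : min (u b) (3 * Real.pi / 2) ≤ 3 * Real.pi / 2 := min_le_right _ _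
    have hneg : Real.sin (min (u b) (3 * Real.pi / 2)) < 0 := by
      have h3 : Real.sin (min (u b) (3 * Real.pi / 2) - 2 * Real.pi) < 0 :=
        Real.sin_neg_of_neg_of_neg_pi_lt (by linarith) (by linarith)
      rwa [Real.sin_sub_two_pi] at h3
    linarith

/-- `[0, π]` and `cos ≥ 0` give `[0, π/2]` -/
lemma le_half {x : ℝ} (h : x ∈ Icc 0 Real.pi) (hc : 0 ≤ Real.cos x) : x ≤ Real.pi / 2 := by
  by_contra hlt
  push Not at hlt
  have := Real.cos_neg_of_pi_div_two_lt_of_lt hlt (by linarith [h.2, Real.pi_pos])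
  linarith

/-- a continuous map of the plane with the signs of `(x, -y)` on the sides of the unit square has a
zero -/
theorem miranda {F : ℝ × ℝ → ℂ} (hF : Continuous F) (h1 : ∀ s, 0 ≤ (F (s, 0)).im)
    (h2 : ∀ t, 0 ≤ (F (1, t)).re) (h3 : ∀ s, (F (s, 1)).im ≤ 0) (h4 : ∀ t, (F (0, t)).re ≤ 0) :
    ∃ s t, F (s, t) = 0 := by
  by_contra hne
  push Not at hne
  have hpi := Real.pi_pos
  have hsc : IsSimplyConnected (univ : Set (ℝ × ℝ)) := by
    have : SimplyConnectedSpace (univ : Set (ℝ × ℝ)) :=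
      (Homeomorph.Set.univ (ℝ × ℝ)).toHomotopyEquiv.simplyConnectedSpace
    exact this
  obtain ⟨f, hfc, hf⟩ := exists_continuousOn_eqOn_exp_comp hsc isOpen_univ
    (g := F) hF.continuousOn
    (by rintro ⟨⟨x, y⟩, -, hx⟩; exact hne _ _ hx)
  have hfc' : Continuous f := continuousOn_univ.1 hfc
  have hfe : ∀ s t, Complex.exp (f (s, t)) = F (s, t) := fun s t => hf (mem_univ _)
  have hre : ∀ s t, (F (s, t)).re = Real.exp (f (s, t)).re * Real.cos (f (s, t)).im := by
    intro s t; rw [← hfe, Complex.exp_re]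
  have him : ∀ s t, (F (s, t)).im = Real.exp (f (s, t)).re * Real.sin (f (s, t)).im := by
    intro s t; rw [← hfe, Complex.exp_im]
  -- signs
  have e1 : ∀ s, 0 ≤ Real.sin (f (s, 0)).im := by
    intro s
    have h := h1 s
    rw [him] at h
    exact (mul_nonneg_iff_of_pos_left (Real.exp_pos _)).1 h
  have e2 : ∀ t, 0 ≤ Real.cos (f (1, t)).im := by
    intro t
    have h := h2 t
    rw [hre] at h
    exact (mul_nonneg_iff_of_pos_left (Real.exp_pos _)).1 h
  have e3 : ∀ s, Real.sin (f (s, 1)).im ≤ 0 := by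
    intro s
    have h := h3 s
    rw [him] at h
    have h5 : 0 ≤ Real.exp (f (s, 1)).re * -Real.sin (f (s, 1)).im := by linarith
    have := (mul_nonneg_iff_of_pos_left (Real.exp_pos _)).1 h5
    linarith
  have e4 : ∀ t, Real.cos (f (0, t)).im ≤ 0 := by
    intro t
    have h := h4 t
    rw [hre] at h
    have h5 : 0 ≤ Real.exp (f (0, t)).re * -Real.cos (f (0, t)).im := by linarith
    have := (mul_nonneg_iff_of_pos_left (Real.exp_pos _)).1 h5
    linarith
  -- normalise
  obtain ⟨k, hk⟩ : ∃ k : ℤ, (f (0, 0)).im - 2 * Real.pi * k ∈ Icc 0 Real.pi := by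
    refine ⟨⌊(f (0, 0)).im / (2 * Real.pi)⌋, ?_, ?_⟩
    · have := Int.floor_le ((f (0, 0)).im / (2 * Real.pi))
      rw [le_div_iff₀ (by positivity)] at this
      linarith
    · by_contra hlt
      push Not at hlt
      have h1 := Int.lt_floor_add_one ((f (0, 0)).im / (2 * Real.pi))
      rw [div_lt_iff₀ (by positivity)] at h1
      set y := (f (0, 0)).im - 2 * Real.pi * ⌊(f (0, 0)).im / (2 * Real.pi)⌋ with hy
      have h3 : Real.sin (y - 2 * Real.pi) < 0 :=
        Real.sin_neg_of_neg_of_neg_pi_lt (by linarith) (by linarith)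
      rw [Real.sin_sub_two_pi] at h3
      have h4 : Real.sin y = Real.sin (f (0, 0)).im := by
        rw [hy, mul_comm, ]
        exact Real.sin_sub_int_mul_two_pi _ _
      rw [h4] at h3
      linarith [e1 0]
  have hsin : ∀ x : ℝ, Real.sin (x - 2 * Real.pi * k) = Real.sin x := by
    intro x; rw [mul_comm]; exact Real.sin_sub_int_mul_two_pi _ _
  have hcos : ∀ x : ℝ, Real.cos (x - 2 * Real.pi * k) = Real.cos x := by
    intro x; rw [mul_comm]; exact Real.cos_sub_int_mul_two_pi _ _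
  set θ : ℝ × ℝ → ℝ := fun x => (f x).im - 2 * Real.pi * k with hθ
  have hθc : Continuous θ := (Complex.continuous_im.comp hfc').sub continuous_const
  have e1' : ∀ s, 0 ≤ Real.sin (θ (s, 0)) := fun s => by rw [hθ]; simpa [hsin] using e1 s
  have e2' : ∀ t, 0 ≤ Real.cos (θ (1, t)) := fun s => by rw [hθ]; simpa [hcos] using e2 s
  have e3' : ∀ s, Real.sin (θ (s, 1)) ≤ 0 := fun s => by rw [hθ]; simpa [hsin] using e3 s
  have e4' : ∀ t, Real.cos (θ (0, t)) ≤ 0 := fun s => by rw [hθ]; simpa [hcos] using e4 s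
  have h00 : θ (0, 0) ∈ Icc 0 Real.pi := hk
  have h10 : θ (1, 0) ∈ Icc 0 Real.pi :=
    stay (u := fun s => θ (s, 0)) (hθc.comp (by fun_prop)) (a := 0) (b := 1)
      (fun x _ => e1' x) h00
  have h10' : θ (1, 0) ≤ Real.pi / 2 := le_half h10 (e2' 0)
  have h11 : θ (1, 1) + Real.pi / 2 ∈ Icc 0 Real.pi :=
    stay (u := fun t => θ (1, t) + Real.pi / 2)
      ((hθc.comp (by fun_prop : Continuous fun t : ℝ => ((1 : ℝ), t))).add continuous_const)
      (a := 0) (b := 1)
      (fun x _ => by rw [Real.sin_add_pi_div_two]; exact e2' x)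
      ⟨by linarith [h10.1], by linarith⟩
  have h11' : θ (1, 1) + Real.pi / 2 ≤ Real.pi / 2 :=
    le_half h11 (by rw [Real.cos_add_pi_div_two]; linarith [e3' 1])
  have h01 : θ (0, 1) + Real.pi ∈ Icc 0 Real.pi :=
    stay (u := fun s => θ (s, 1) + Real.pi)
      ((hθc.comp (by fun_prop : Continuous fun s : ℝ => (s, (1 : ℝ)))).add continuous_const)
      (a := 1) (b := 0)
      (fun x _ => by rw [Real.sin_add_pi]; linarith [e3' x])
      ⟨by linarith [h11.1], by linarith⟩
  have h01' : θ (0, 1) + Real.pi ≤ Real.pi / 2 :=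
    le_half h01 (by rw [Real.cos_add_pi]; linarith [e4' 1])
  have h00' : θ (0, 0) + 3 * Real.pi / 2 ∈ Icc 0 Real.pi :=
    stay (u := fun t => θ (0, t) + 3 * Real.pi / 2)
      ((hθc.comp (by fun_prop : Continuous fun t : ℝ => ((0 : ℝ), t))).add continuous_const)
      (a := 1) (b := 0)
      (fun x _ => by
        have : θ (0, x) + 3 * Real.pi / 2 = (θ (0, x) + Real.pi) + Real.pi / 2 := by ring
        rw [this, Real.sin_add_pi_div_two, Real.cos_add_pi]; linarith [e4' x])
      ⟨by linarith [h01.1], by linarith⟩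
  linarith [h00'.2, h00.1]

/-- the crossing lemma in the unit square, for maps of the line -/
theorem cross_line {α β : ℝ → ℂ} (hα : Continuous α) (hβ : Continuous β) (hαs : ∀ s, α s ∈ sq)
    (hβs : ∀ t, β t ∈ sq) (hα0 : (α 0).re = 0) (hα1 : (α 1).re = 1) (hβ0 : (β 0).im = 0)
    (hβ1 : (β 1).im = 1) : ∃ s t, α s = β t := by
  obtain ⟨s, t, h⟩ := miranda (F := fun x : ℝ × ℝ => α x.1 - β x.2)
    ((hα.comp continuous_fst).sub (hβ.comp continuous_snd))
    (fun s => by simp only [sub_im, hβ0, sub_zero]; exact (hαs s).2.2.1)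
    (fun t => by simp only [sub_re, hα1]; linarith [(hβs t).2.1])
    (fun s => by simp only [sub_im, hβ1]; linarith [(hαs s).2.2.2])
    (fun t => by simp only [sub_re, hα0]; linarith [(hβs t).1])
  exact ⟨s, t, sub_eq_zero.1 h⟩

/-- the crossing lemma in the unit square -/
theorem cross_sq {a b c d : ℂ} (α : Path a b) (β : Path c d) (hα : ∀ t, α t ∈ sq)
    (hβ : ∀ t, β t ∈ sq) (ha : a.re = 0) (hb : b.re = 1) (hc : c.im = 0) (hd : d.im = 1) :
    ∃ s t, α s = β t := by
  obtain ⟨s, t, h⟩ := cross_line (α := α.extend) (β := β.extend) α.continuous_extend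
    β.continuous_extend (fun s => hα _) (fun t => hβ _) (by simpa using ha) (by simpa using hb)
    (by simpa using hc) (by simpa using hd)
  exact ⟨_, _, h⟩

lemma isCompact_sq : IsCompact sq := by
  have : sq = (Icc (0 : ℝ) 1 ×ℂ Icc (0 : ℝ) 1) := by
    ext w; simp [sq, Complex.mem_reProdIm, and_assoc]
  rw [this]
  exact isCompact_Icc.reProdIm isCompact_Icc

/-- the lower side of the unit square -/
def sqB : Set ℂ := {w | w ∈ sq ∧ w.im = 0}

/-- the upper side of the unit square -/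
def sqT : Set ℂ := {w | w ∈ sq ∧ w.im = 1}

/-- the inverse of a quadrilateral is continuous -/
lemma IsQuad.inv_cont {q : ℂ → ℂ} (hq : IsQuad q) :
    ∃ g : ℂ → ℂ, ContinuousOn g (q '' sq) ∧ (∀ w ∈ sq, g (q w) = w) := by
  refine ⟨Function.invFunOn q sq, ?_, fun w hw => hq.inj.leftInvOn_invFunOn hw⟩
  rw [continuousOn_iff_isClosed]
  intro t ht
  refine ⟨q '' (sq ∩ t), ?_, ?_⟩
  · exact ((isCompact_sq.inter_right ht).image_of_continuousOn
      (hq.cont.mono inter_subset_left)).isClosed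
  · ext y
    constructor
    · rintro ⟨h1, ⟨x, hx, rfl⟩⟩
      rw [mem_preimage, hq.inj.leftInvOn_invFunOn hx] at h1
      exact ⟨⟨x, ⟨hx, h1⟩, rfl⟩, ⟨x, hx, rfl⟩⟩
    · rintro ⟨⟨x, ⟨hx, hxt⟩, rfl⟩, -⟩
      refine ⟨?_, x, hx, rfl⟩
      rw [mem_preimage, hq.inj.leftInvOn_invFunOn hx]
      exact hxt

/-- **Planar crossing lemma.** -/
theorem IsQuad.cross {q : ℂ → ℂ} (hq : IsQuad q) {F G : Set ℂ} {a b c d : ℂ}
    (ha : a ∈ q '' sqL) (hb : b ∈ q '' sqR) (hc : c ∈ q '' sqB) (hd : d ∈ q '' sqT)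
    (h1 : JoinedIn (F ∩ q '' sq) a b) (h2 : JoinedIn (G ∩ q '' sq) c d) : (F ∩ G).Nonempty := by
  obtain ⟨g, hg, hgq⟩ := hq.inv_cont
  obtain ⟨α, hα⟩ := h1
  obtain ⟨β, hβ⟩ := h2
  have hgs : ∀ y ∈ q '' sq, g y ∈ sq := by
    rintro _ ⟨x, hx, rfl⟩; rw [hgq x hx]; exact hx
  have hqg : ∀ y ∈ q '' sq, q (g y) = y := by
    rintro _ ⟨x, hx, rfl⟩; rw [hgq x hx]
  have cα : Continuous fun s : ℝ => g (α.extend s) :=
    hg.comp_continuous α.continuous_extend (fun s => (hα _).2)
  have cβ : Continuous fun s : ℝ => g (β.extend s) :=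
    hg.comp_continuous β.continuous_extend (fun s => (hβ _).2)
  obtain ⟨s, t, hst⟩ := cross_line cα cβ (fun s => hgs _ (hα _).2) (fun t => hgs _ (hβ _).2)
    (by obtain ⟨x, hx, rfl⟩ := ha; simp [hgq x hx.1, hx.2])
    (by obtain ⟨x, hx, rfl⟩ := hb; simp [hgq x hx.1, hx.2])
    (by obtain ⟨x, hx, rfl⟩ := hc; simp [hgq x hx.1, hx.2])
    (by obtain ⟨x, hx, rfl⟩ := hd; simp [hgq x hx.1, hx.2])
  refine ⟨α.extend s, (hα _).1, ?_⟩
  have : α.extend s = β.extend t := by
    rw [← hqg (α.extend s) (hα _).2, ← hqg (β.extend t) (hβ _).2, hst]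
  rw [this]
  exact (hβ _).1

/-- **Poincaré-Miranda** for the unit square -/
theorem poincare_miranda {φ ψ : ℂ → ℝ} (hφ : ContinuousOn φ sq) (hψ : ContinuousOn ψ sq)
    (hL : ∀ w ∈ sqL, φ w ≤ 0) (hR : ∀ w ∈ sqR, 0 ≤ φ w) (hB : ∀ w ∈ sqB, ψ w ≤ 0)
    (hT : ∀ w ∈ sqT, 0 ≤ ψ w) : ∃ w ∈ sq, φ w = 0 ∧ ψ w = 0 := by
  set c : ℝ × ℝ → ℂ := fun x => ⟨max 0 (min 1 x.1), max 0 (min 1 x.2)⟩ with hc
  have hcs : ∀ x, c x ∈ sq := fun x =>
    ⟨le_max_left _ _, max_le zero_le_one (min_le_left _ _), le_max_left _ _,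
      max_le zero_le_one (min_le_left _ _)⟩
  have hcc : Continuous c := by
    have h : c = fun x => Complex.equivRealProdCLM.symm (max 0 (min 1 x.1), max 0 (min 1 x.2)) := by
      funext x; rfl
    rw [h]
    exact Complex.equivRealProdCLM.symm.continuous.comp (by fun_prop)
  have h1 : Continuous fun x => φ (c x) := hφ.comp_continuous hcc hcs
  have h2 : Continuous fun x => ψ (c x) := hψ.comp_continuous hcc hcs
  obtain ⟨s, t, h⟩ := miranda (F := fun x => (φ (c x) : ℂ) - ψ (c x) * I)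
    ((Complex.continuous_ofReal.comp h1).sub
      ((Complex.continuous_ofReal.comp h2).mul continuous_const))
    (fun s => by
      have := hB (c (s, 0)) ⟨hcs _, by simp [hc]⟩
      simp; exact this)
    (fun t => by
      have := hR (c (1, t)) ⟨hcs _, by simp [hc]⟩
      simpa using this)
    (fun s => by
      have := hT (c (s, 1)) ⟨hcs _, by simp [hc]⟩
      simp; exact this)
    (fun t => by
      have := hL (c (0, t)) ⟨hcs _, by simp [hc]⟩
      simpa using this)
  refine ⟨c (s, t), hcs _, ?_, ?_⟩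
  · have := congrArg Complex.re h
    simpa using this
  · have := congrArg Complex.im h
    simpa using this

end Full
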